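import Pool.Agent.Helper58.Qip.Final
import Pool.Agent.Helper82.Qip.StmtA
import Pool.Agent.Helper17.Qip.StmtK
import Pool.Agent.Helper31.Qip.StmtB
import Pool.Agent.H29.Qip.StmtU
import Pool.Agent.Helper33.Qip.StmtC
import Pool.Agent.Helper84.Qip.StmtD
import Pool.Agent.Helper93.Qip.StmtE
import Pool.Agent.Helper93.Qip.StmtE0
import Pool.Agent.Helper66.Qip.StmtE2
import Pool.Agent.Helper1.Qip.StmtF
import Pool.Agent.Helper11.Qip.StmtG
import Pool.Agent.Helper18.Qip.StmtI
import Pool.Agent.Helper96.Qip.StmtT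
import Pool.Agent.Helper66.Qip.StmtM

set_option autoImplicit false

/-!
MP_5bf1c5_pr: the quenched invariance principle for the random walk on a discrete point
process, in all dimensions `d ≥ 2`, already under the second moment condition.
-/

open MeasureTheory ProbabilityTheory Filter Topology
open scoped ENNReal NNReal
open Pool.Agent.Helper58.Qip

namespace Pool.Agent.Results.MP_5bf1c5_pr.QuenchedInvariance

/-- The quenched invariance principle under (A1), (A2) and `E_P [f_e ^ (2 + ε)] < ∞` for all `e`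
and some `ε ≥ 0`. -/
theorem result (d : ℕ) (hd : 2 ≤ d) (Q : Measure (Conf d)) (hQ : IsProbabilityMeasure Q)
    (hA1 : ∀ i : Fin d, Ergodic (shift (Pi.single i 1)) Q)
    (hA2 : Q {ω | ∀ x, ω x = false} < 1)
    (hA3 : ∃ ε : ℝ, 0 ≤ ε ∧ ∀ e : Dir d,
      ∫⁻ ω, ENNReal.ofReal ((hop e ω : ℝ) ^ (2 + ε)) ∂palm Q < ⊤) :
    ∃ D : Matrix (Fin d) (Fin d) ℝ, D.PosSemidef ∧
      ∀ᵐ ω ∂palm Q, ConvBM D (fun n u => path ω u n) (unif (Dir d)) :=
  main_of_packets
    { A := Pool.Agent.Helper82.Qip.stmtA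
      K := Pool.Agent.Helper17.QipK.stmtK
      B := Pool.Agent.Helper31.Qip.stmtB
      U := Pool.Agent.H29.Qip.stmtU
      C1 := Pool.Agent.Helper33.Qip.stmtC1
      C2 := Pool.Agent.Helper33.Qip.stmtC2
      D1 := Pool.Agent.Helper84.Qip.stmtD1
      D2 := Pool.Agent.Helper84.Qip.stmtD2
      D3 := Pool.Agent.Helper84.Qip.stmtD3
      E := Pool.Agent.Helper93.Qip.stmtE
      E2 := stmtE2 Pool.Agent.Helper93.Qip.stmtE Pool.Agent.Helper93.Qip.stmtE0
      F := Pool.Agent.Helper1.Qip.stmtF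
      G := Pool.Agent.Helper11.Qip.stmtG
      I := Pool.Agent.Helper18.Qip.stmtI
      T := Pool.Agent.Helper96.QipT.stmtT Pool.Agent.Helper17.QipK.stmtK
      M := stmtM } d hd Q hQ hA1 hA2 hA3

end Pool.Agent.Results.MP_5bf1c5_pr.QuenchedInvariance
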